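import Pool.Agent.NBT.StmtsC
import Pool.Agent.Helper37_PFS.Main

/-! Row SCQ of the table nbt (MP_e54c4c_gt). -/

set_option autoImplicit false

open Matrix Filter Topology

namespace Pool.Agent.NBT.H27

open Pool.Agent.PFS Pool.Agent.PFJ Pool.Agent.NBT

theorem scq : ScqStmt := by
  intro n C Γ Γ₀ K T hC hK hF x hx
  obtain ⟨φ, g, s, p, hφ, hg, hs, hp, hlim⟩ := hF.cpt x hx
  have hT : ∀ m, T (fun i => s m • act (g m) (x (φ m) i)) := by
    intro m
    exact hF.scl _ (hF.inv _ (hx (φ m)) (g m) (hg m)) (fun _ => s m) (fun _ => hs m)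
  have hsum : Tendsto (fun m => ∑ i, s m • act (g m) (x (φ m) i)) atTop (𝓝 p) := by
    refine hlim.congr fun m => ?_
    rw [← Finset.smul_sum, ← CC.act_sum]
  have hcard : 2 ≤ Fintype.card (Fin K) := by
    rw [Fintype.card_fin]
    omega
  obtain ⟨ψ, w, hψ, hw, hwp, _⟩ := Pool.Agent.PFS.H37.lpsF n C Γ hC (Fin K) hcard
    (fun m i => s m • act (g m) (x (φ m) i)) p (fun m => hF.pes _ (hT m)) hp hsum
  refine ⟨fun m => φ (ψ m), fun m => g (ψ m), fun m => s (ψ m), w, hφ.comp hψ,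
    fun m => hg _, fun m => hs _, ?_, hw⟩
  refine hF.cld (fun m i => s (ψ m) • act (g (ψ m)) (x (φ (ψ m)) i)) w (fun m => hT (ψ m)) hw ?_
  rw [hwp]
  exact hp

end Pool.Agent.NBT.H27
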